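import Pool.Agent.K4W.StmtsP
import Mathlib.NumberTheory.ModularForms.JacobiTheta.TwoVariable

/-!
# Squad K4W, row GSC: summability of the Gaussians
-/

set_option autoImplicit false

namespace Pool.Agent.K4W.H28

open Complex Pool.Agent.K4W

theorem gsc : GscStmt := by
  intro A hA c r hr
  have h : Summable fun k : ℤ => jacobiTheta₂_term k (I * A * c * r) (I * A * (r : ℂ) ^ 2) := by
    rw [summable_jacobiTheta₂_term_iff]
    have e : I * A * (r : ℂ) ^ 2 = I * (A * ((r ^ 2 : ℝ) : ℂ)) := by push_cast; ring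
    rw [e, I_mul_im, re_mul_ofReal]
    positivity
  have h2 := (h.mul_left (cexp (-((Real.pi : ℂ) * A * (c : ℂ) ^ 2)))).norm
  refine h2.congr fun k => ?_
  rw [jacobiTheta₂_term, ← Complex.exp_add]
  congr 2
  have hI : I ^ 2 = -1 := I_sq
  linear_combination (2 * (Real.pi : ℂ) * k * A * c * r + (Real.pi : ℂ) * k ^ 2 * A * r ^ 2) * hI

end Pool.Agent.K4W.H28
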